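import Pool.Agent.W8.ST.Stm

/-!
Project ST: the energy identity.
-/

open scoped ContDiff
open MeasureTheory intervalIntegral Pool.Agent.W8.ST

namespace Pool.Agent.W331.ST

theorem swap2 {a b c d : ℝ} {F : ℝ → ℝ → ℝ} (hF : Continuous (fun p : ℝ × ℝ => F p.1 p.2)) :
    ∫ x in a..b, ∫ y in c..d, F x y = ∫ y in c..d, ∫ x in a..b, F x y := by
  apply MeasureTheory.intervalIntegral_intervalIntegral_swap
  have h1 : IntegrableOn (Function.uncurry F) (Set.uIcc a b ×ˢ Set.uIcc c d)
      (volume : Measure (ℝ × ℝ)) :=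
    ContinuousOn.integrableOn_compact (isCompact_uIcc.prod isCompact_uIcc)
      (Continuous.continuousOn hF)
  exact h1.mono_set (Set.prod_mono Set.uIoc_subset_uIcc Set.uIoc_subset_uIcc)

theorem vec_cont {X : Type} [TopologicalSpace X] {f0 f1 f2 f3 : X → ℝ} (h0 : Continuous f0)
    (h1 : Continuous f1) (h2 : Continuous f2) (h3 : Continuous f3) :
    Continuous (fun x => (![f0 x, f1 x, f2 x, f3 x] : V 4)) := by
  refine continuous_pi fun i => ?_
  fin_cases i
  · simpa using h0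
  · simpa using h1
  · simpa using h2
  · simpa using h3

theorem param {X : Type} [TopologicalSpace X] {f : X × ℝ → ℝ}
    (hf : Continuous f) (a b : ℝ) :
    Continuous (fun x => ∫ t in a..b, f (x, t)) :=
  intervalIntegral.continuous_parametric_intervalIntegral_of_continuous'
    (f := fun x t => f (x, t)) hf a b

section

variable {G H : V 4 → ℝ}

theorem cc (hG : Continuous G) :
    Continuous (fun p : ((ℝ × ℝ) × ℝ) × ℝ => G ![p.1.1.1, p.1.1.2, p.1.2, p.2]) :=
  hG.comp (vec_cont (by fun_prop) (by fun_prop) (by fun_prop) (by fun_prop))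

theorem cb (hG : Continuous G) :
    Continuous (fun p : (ℝ × ℝ) × ℝ => ∫ c in (0 : ℝ)..(2 * Real.pi), G ![p.1.1, p.1.2, p.2, c]) :=
  param (cc hG) _ _

theorem ca (hG : Continuous G) :
    Continuous (fun p : ℝ × ℝ => ∫ b in (0 : ℝ)..(2 * Real.pi), ∫ c in (0 : ℝ)..(2 * Real.pi),
      G ![p.1, p.2, b, c]) :=
  param (cb hG) _ _

theorem ct (hG : Continuous G) :
    Continuous (fun t : ℝ => ∫ a in (0 : ℝ)..(2 * Real.pi), ∫ b in (0 : ℝ)..(2 * Real.pi),
      ∫ c in (0 : ℝ)..(2 * Real.pi), G ![t, a, b, c]) :=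
  param (ca hG) _ _

theorem box_add (hG : Continuous G) (hH : Continuous H) :
    box (fun x => G x + H x) = box G + box H := by
  unfold box
  have e1 : ∀ t a b : ℝ, ∫ c in (0 : ℝ)..(2 * Real.pi), (G ![t, a, b, c] + H ![t, a, b, c]) =
      (∫ c in (0 : ℝ)..(2 * Real.pi), G ![t, a, b, c]) +
        ∫ c in (0 : ℝ)..(2 * Real.pi), H ![t, a, b, c] := by
    intro t a b
    exact intervalIntegral.integral_add
      (((cc hG).comp (g := fun p => G ![p.1.1.1, p.1.1.2, p.1.2, p.2])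
        (f := fun c : ℝ => (((t, a), b), c)) (by fun_prop)).intervalIntegrable _ _)
      (((cc hH).comp (g := fun p => H ![p.1.1.1, p.1.1.2, p.1.2, p.2])
        (f := fun c : ℝ => (((t, a), b), c)) (by fun_prop)).intervalIntegrable _ _)
  have e2 : ∀ t a : ℝ, ∫ b in (0 : ℝ)..(2 * Real.pi),
      ((∫ c in (0 : ℝ)..(2 * Real.pi), G ![t, a, b, c]) +
        ∫ c in (0 : ℝ)..(2 * Real.pi), H ![t, a, b, c]) =
      (∫ b in (0 : ℝ)..(2 * Real.pi), ∫ c in (0 : ℝ)..(2 * Real.pi), G ![t, a, b, c]) +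
        ∫ b in (0 : ℝ)..(2 * Real.pi), ∫ c in (0 : ℝ)..(2 * Real.pi), H ![t, a, b, c] := by
    intro t a
    exact intervalIntegral.integral_add
      (((cb hG).comp (f := fun b : ℝ => ((t, a), b)) (by fun_prop)).intervalIntegrable _ _)
      (((cb hH).comp (f := fun b : ℝ => ((t, a), b)) (by fun_prop)).intervalIntegrable _ _)
  have e3 : ∀ t : ℝ, ∫ a in (0 : ℝ)..(2 * Real.pi),
      ((∫ b in (0 : ℝ)..(2 * Real.pi), ∫ c in (0 : ℝ)..(2 * Real.pi), G ![t, a, b, c]) +
        ∫ b in (0 : ℝ)..(2 * Real.pi), ∫ c in (0 : ℝ)..(2 * Real.pi), H ![t, a, b, c]) =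
      (∫ a in (0 : ℝ)..(2 * Real.pi), ∫ b in (0 : ℝ)..(2 * Real.pi),
        ∫ c in (0 : ℝ)..(2 * Real.pi), G ![t, a, b, c]) +
        ∫ a in (0 : ℝ)..(2 * Real.pi), ∫ b in (0 : ℝ)..(2 * Real.pi),
          ∫ c in (0 : ℝ)..(2 * Real.pi), H ![t, a, b, c] := by
    intro t
    exact intervalIntegral.integral_add
      (((ca hG).comp (f := fun a : ℝ => (t, a)) (by fun_prop)).intervalIntegrable _ _)
      (((ca hH).comp (f := fun a : ℝ => (t, a)) (by fun_prop)).intervalIntegrable _ _)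
  simp_rw [e1, e2, e3]
  exact intervalIntegral.integral_add ((ct hG).intervalIntegrable _ _)
    ((ct hH).intervalIntegrable _ _)

theorem mem_strip' {t : ℝ} (ht : t ∈ Set.uIcc (-1 : ℝ) 1) (a b c : ℝ) :
    (![t, a, b, c] : V 4) ∈ strip 3 := by
  rw [Set.uIcc_of_le (by norm_num)] at ht
  show |(![t, a, b, c] : V 4) 0| ≤ 1
  simp only [Matrix.cons_val_zero]
  exact abs_le.2 ⟨ht.1, ht.2⟩

theorem box_congr (h : ∀ x ∈ strip 3, G x = H x) : box G = box H := by
  unfold box
  apply intervalIntegral.integral_congr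
  intro t ht
  have e : ∀ a b c : ℝ, G ![t, a, b, c] = H ![t, a, b, c] := fun a b c =>
    h _ (mem_strip' ht a b c)
  simp only [e]

/-- `t` innermost -/
theorem box_t (hG : Continuous G) (h : ∀ a b c : ℝ, ∫ t in (-1 : ℝ)..1, G ![t, a, b, c] = 0) :
    box G = 0 := by
  unfold box
  rw [swap2 (F := fun t a => ∫ b in (0 : ℝ)..(2 * Real.pi), ∫ c in (0 : ℝ)..(2 * Real.pi),
      G ![t, a, b, c]) (ca hG)]
  have e1 : ∀ a : ℝ, ∫ t in (-1 : ℝ)..1, ∫ b in (0 : ℝ)..(2 * Real.pi),
      ∫ c in (0 : ℝ)..(2 * Real.pi), G ![t, a, b, c] = 0 := by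
    intro a
    rw [swap2 (F := fun t b => ∫ c in (0 : ℝ)..(2 * Real.pi), G ![t, a, b, c])
      ((cb hG).comp (f := fun p : ℝ × ℝ => ((p.1, a), p.2)) (by fun_prop))]
    have e2 : ∀ b : ℝ, ∫ t in (-1 : ℝ)..1, ∫ c in (0 : ℝ)..(2 * Real.pi), G ![t, a, b, c] = 0 := by
      intro b
      rw [swap2 (F := fun t c => G ![t, a, b, c])
        ((cc hG).comp (g := fun p => G ![p.1.1.1, p.1.1.2, p.1.2, p.2])
          (f := fun p : ℝ × ℝ => (((p.1, a), b), p.2)) (by fun_prop))]
      simp only [h, intervalIntegral.integral_zero]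
    simp only [e2, intervalIntegral.integral_zero]
  simp only [e1, intervalIntegral.integral_zero]

/-- `a` innermost -/
theorem box_a (hG : Continuous G)
    (h : ∀ t ∈ Set.uIcc (-1 : ℝ) 1, ∀ b c : ℝ,
      ∫ a in (0 : ℝ)..(2 * Real.pi), G ![t, a, b, c] = 0) :
    box G = 0 := by
  unfold box
  rw [intervalIntegral.integral_congr (g := fun _ => (0 : ℝ)), intervalIntegral.integral_zero]
  intro t ht
  show ∫ a in (0 : ℝ)..(2 * Real.pi), ∫ b in (0 : ℝ)..(2 * Real.pi),
      ∫ c in (0 : ℝ)..(2 * Real.pi), G ![t, a, b, c] = 0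
  rw [swap2 (F := fun a b => ∫ c in (0 : ℝ)..(2 * Real.pi), G ![t, a, b, c])
      ((cb hG).comp (f := fun p : ℝ × ℝ => ((t, p.1), p.2)) (by fun_prop))]
  have e2 : ∀ b : ℝ, ∫ a in (0 : ℝ)..(2 * Real.pi), ∫ c in (0 : ℝ)..(2 * Real.pi),
      G ![t, a, b, c] = 0 := by
    intro b
    rw [swap2 (F := fun a c => G ![t, a, b, c])
      ((cc hG).comp (g := fun p => G ![p.1.1.1, p.1.1.2, p.1.2, p.2])
        (f := fun p : ℝ × ℝ => (((t, p.1), b), p.2)) (by fun_prop))]
    simp only [h t ht, intervalIntegral.integral_zero]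
  simp only [e2, intervalIntegral.integral_zero]

/-- `b` innermost -/
theorem box_b (hG : Continuous G)
    (h : ∀ t ∈ Set.uIcc (-1 : ℝ) 1, ∀ a c : ℝ,
      ∫ b in (0 : ℝ)..(2 * Real.pi), G ![t, a, b, c] = 0) :
    box G = 0 := by
  unfold box
  rw [intervalIntegral.integral_congr (g := fun _ => (0 : ℝ)), intervalIntegral.integral_zero]
  intro t ht
  show ∫ a in (0 : ℝ)..(2 * Real.pi), ∫ b in (0 : ℝ)..(2 * Real.pi),
      ∫ c in (0 : ℝ)..(2 * Real.pi), G ![t, a, b, c] = 0
  have e2 : ∀ a : ℝ, ∫ b in (0 : ℝ)..(2 * Real.pi), ∫ c in (0 : ℝ)..(2 * Real.pi),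
      G ![t, a, b, c] = 0 := by
    intro a
    rw [swap2 (F := fun b c => G ![t, a, b, c])
      ((cc hG).comp (g := fun p => G ![p.1.1.1, p.1.1.2, p.1.2, p.2])
        (f := fun p : ℝ × ℝ => (((t, a), p.1), p.2)) (by fun_prop))]
    simp only [h t ht, intervalIntegral.integral_zero]
  simp only [e2, intervalIntegral.integral_zero]

/-- `c` innermost -/
theorem box_c
    (h : ∀ t ∈ Set.uIcc (-1 : ℝ) 1, ∀ a b : ℝ,
      ∫ c in (0 : ℝ)..(2 * Real.pi), G ![t, a, b, c] = 0) :
    box G = 0 := by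
  unfold box
  rw [intervalIntegral.integral_congr (g := fun _ => (0 : ℝ)), intervalIntegral.integral_zero]
  intro t ht
  simp only [h t ht, intervalIntegral.integral_zero]

end

/-! ### derivatives along coordinate lines -/

theorem hv0 (a b c s : ℝ) : HasDerivAt (fun s : ℝ => (![s, a, b, c] : V 4)) (Pi.single 0 1) s := by
  rw [hasDerivAt_pi]
  intro j
  fin_cases j
  · simpa using hasDerivAt_id' s
  · simpa using hasDerivAt_const s a
  · simpa using hasDerivAt_const s b
  · simpa using hasDerivAt_const s c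

theorem hv1 (t b c e s : ℝ) :
    HasDerivAt (fun s : ℝ => (![t, s + e, b, c] : V 4)) (Pi.single 1 1) s := by
  rw [hasDerivAt_pi]
  intro j
  fin_cases j
  · simpa using hasDerivAt_const s t
  · simpa using (hasDerivAt_id s).add_const e
  · simpa using hasDerivAt_const s b
  · simpa using hasDerivAt_const s c

theorem hv2 (t a c e s : ℝ) :
    HasDerivAt (fun s : ℝ => (![t, a, s + e, c] : V 4)) (Pi.single 2 1) s := by
  rw [hasDerivAt_pi]
  intro j
  fin_cases j
  · simpa using hasDerivAt_const s t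
  · simpa using hasDerivAt_const s a
  · simpa using (hasDerivAt_id s).add_const e
  · simpa using hasDerivAt_const s c

theorem hv3 (t a b e s : ℝ) :
    HasDerivAt (fun s : ℝ => (![t, a, b, s + e] : V 4)) (Pi.single 3 1) s := by
  rw [hasDerivAt_pi]
  intro j
  fin_cases j
  · simpa using hasDerivAt_const s t
  · simpa using hasDerivAt_const s a
  · simpa using hasDerivAt_const s b
  · simpa using (hasDerivAt_id s).add_const e

section

variable {u : V 4 → ℝ}

theorem der (hu : ContDiff ℝ ∞ u) {γ : ℝ → V 4} {i : Fin 4} {s : ℝ}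
    (hγ : HasDerivAt γ (Pi.single i 1) s) : HasDerivAt (fun s => u (γ s)) (pd i u (γ s)) s :=
  ((hu.differentiable (by simp)) (γ s)).hasFDerivAt.comp_hasDerivAt s hγ

theorem pd_smooth (hu : ContDiff ℝ ∞ u) (i : Fin 4) : ContDiff ℝ ∞ (pd i u) := by
  unfold pd
  exact (hu.fderiv_right (m := ∞) (by simp)).clm_apply contDiff_const

/-- the total derivative -/
noncomputable def KK (u : V 4 → ℝ) (i : Fin 4) (x : V 4) : ℝ :=
  pd i u x * pd i u x + u x * pd i (pd i u) x

theorem KK_cont (hu : ContDiff ℝ ∞ u) (i : Fin 4) : Continuous (KK u i) :=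
  ((pd_smooth hu i).continuous.mul (pd_smooth hu i).continuous).add
    (hu.continuous.mul (pd_smooth (pd_smooth hu i) i).continuous)

theorem derK (hu : ContDiff ℝ ∞ u) {γ : ℝ → V 4} {i : Fin 4} {s : ℝ}
    (hγ : HasDerivAt γ (Pi.single i 1) s) :
    HasDerivAt (fun s => u (γ s) * pd i u (γ s)) (KK u i (γ s)) s :=
  (der hu hγ).mul (der (pd_smooth hu i) hγ)

theorem intK (hu : ContDiff ℝ ∞ u) {γ : ℝ → V 4} {i : Fin 4} (hc : Continuous γ)
    (hγ : ∀ s, HasDerivAt γ (Pi.single i 1) s) {A B : ℝ}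
    (h : u (γ B) * pd i u (γ B) = u (γ A) * pd i u (γ A)) :
    ∫ s in A..B, KK u i (γ s) = 0 := by
  rw [intervalIntegral.integral_eq_sub_of_hasDerivAt (fun s _ => derK hu (hγ s))
    (((KK_cont hu i).comp hc).intervalIntegrable _ _), h, sub_self]

theorem per_pd (hu : ContDiff ℝ ∞ u) {γ γ' : ℝ → V 4} {i : Fin 4} {s : ℝ}
    (hγ : HasDerivAt γ (Pi.single i 1) s) (hγ' : HasDerivAt γ' (Pi.single i 1) s)
    (h : ∀ s, u (γ s) = u (γ' s)) : pd i u (γ s) = pd i u (γ' s) := by
  have h1 := der hu hγ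
  have h2 := der hu hγ'
  have e : (fun s => u (γ s)) = fun s => u (γ' s) := funext h
  rw [e] at h1
  exact h1.unique h2

end

theorem Ene_proof : Ene := by
  intro lam u hu
  obtain ⟨hs, hper, heq, hbd⟩ := hu
  have hq : Continuous q := by
    unfold q
    fun_prop
  have hq0 : ∀ t, q t ≠ 0 := fun t => (Real.exp_pos _).ne'
  have hk1 : Continuous fun x : V 4 => ((q (x 0))⁻¹) ^ 2 :=
    ((hq.comp (continuous_apply 0)).inv₀ fun x => hq0 _).pow 2
  have hk2 : Continuous fun x : V 4 => (q (x 0)) ^ 2 :=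
    (hq.comp (continuous_apply 0)).pow 2
  have c1 : Continuous fun x : V 4 => ((q (x 0))⁻¹) ^ 2 * KK u 1 x := hk1.mul (KK_cont hs 1)
  have c2 : Continuous fun x : V 4 => (q (x 0)) ^ 2 * KK u 2 x := hk2.mul (KK_cont hs 2)
  have c3 : Continuous fun x : V 4 => (q (x 0)) ^ 2 * KK u 3 x := hk2.mul (KK_cont hs 3)
  -- periodicity
  have p1 : ∀ t ∈ Set.uIcc (-1 : ℝ) 1, ∀ a b c : ℝ,
      u ![t, a + 2 * Real.pi, b, c] = u ![t, a + 0, b, c] := by
    intro t ht a b c
    have h := hper _ (mem_strip' ht (a + 0) b c) 0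
    rw [← h]
    congr 1
    ext j
    fin_cases j <;> simp
  have p2 : ∀ t ∈ Set.uIcc (-1 : ℝ) 1, ∀ a b c : ℝ,
      u ![t, a, b + 2 * Real.pi, c] = u ![t, a, b + 0, c] := by
    intro t ht a b c
    have h := hper _ (mem_strip' ht a (b + 0) c) 1
    rw [← h]
    congr 1
    ext j
    fin_cases j <;> simp
  have p3 : ∀ t ∈ Set.uIcc (-1 : ℝ) 1, ∀ a b c : ℝ,
      u ![t, a, b, c + 2 * Real.pi] = u ![t, a, b, c + 0] := by
    intro t ht a b c
    have h := hper _ (mem_strip' ht a b (c + 0)) 2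
    rw [← h]
    congr 1
    ext j
    fin_cases j <;> simp
  -- the four boxes
  have b0 : box (KK u 0) = 0 := by
    apply box_t (KK_cont hs 0)
    intro a b c
    refine intK hs (γ := fun t => ![t, a, b, c]) (vec_cont (by fun_prop) (by fun_prop)
      (by fun_prop) (by fun_prop)) (fun s => hv0 a b c s) ?_
    have e1 := hbd ![1, a, b, c] (by simp)
    have e2 := hbd ![-1, a, b, c] (by simp)
    simp only [Matrix.cons_val_zero, zero_mul, one_mul, neg_mul, neg_eq_zero] at e1 e2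
    rw [e1, e2]
    simp
  have b1 : box (fun x => ((q (x 0))⁻¹) ^ 2 * KK u 1 x) = 0 := by
    apply box_a c1
    intro t ht b c
    simp only [Matrix.cons_val_zero]
    rw [intervalIntegral.integral_const_mul]
    have h := intK hs (γ := fun s => ![t, s + 0, b, c]) (i := 1) (A := 0) (B := 2 * Real.pi)
      (vec_cont (by fun_prop) (by fun_prop) (by fun_prop) (by fun_prop))
      (fun s => hv1 t b c 0 s) (by
        have e1 := p1 t ht 0 b c
        have e2 := per_pd hs (hv1 t b c (2 * Real.pi) 0) (hv1 t b c 0 0) (fun s => p1 t ht s b c)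
        simp only [zero_add, add_zero] at e1 e2 ⊢
        rw [e1, e2])
    simp only [add_zero] at h
    rw [h, mul_zero]
  have b2 : box (fun x => (q (x 0)) ^ 2 * KK u 2 x) = 0 := by
    apply box_b c2
    intro t ht a c
    simp only [Matrix.cons_val_zero]
    rw [intervalIntegral.integral_const_mul]
    have h := intK hs (γ := fun s => ![t, a, s + 0, c]) (i := 2) (A := 0) (B := 2 * Real.pi)
      (vec_cont (by fun_prop) (by fun_prop) (by fun_prop) (by fun_prop))
      (fun s => hv2 t a c 0 s) (by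
        have e1 := p2 t ht a 0 c
        have e2 := per_pd hs (hv2 t a c (2 * Real.pi) 0) (hv2 t a c 0 0) (fun s => p2 t ht a s c)
        simp only [zero_add, add_zero] at e1 e2 ⊢
        rw [e1, e2])
    simp only [add_zero] at h
    rw [h, mul_zero]
  have b3 : box (fun x => (q (x 0)) ^ 2 * KK u 3 x) = 0 := by
    apply box_c
    intro t ht a b
    simp only [Matrix.cons_val_zero]
    rw [intervalIntegral.integral_const_mul]
    have h := intK hs (γ := fun s => ![t, a, b, s + 0]) (i := 3) (A := 0) (B := 2 * Real.pi)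
      (vec_cont (by fun_prop) (by fun_prop) (by fun_prop) (by fun_prop))
      (fun s => hv3 t a b 0 s) (by
        have e1 := p3 t ht a b 0
        have e2 := per_pd hs (hv3 t a b (2 * Real.pi) 0) (hv3 t a b 0 0) (fun s => p3 t ht a b s)
        simp only [zero_add, add_zero] at e1 e2 ⊢
        rw [e1, e2])
    simp only [add_zero] at h
    rw [h, mul_zero]
  rw [box_congr (H := fun x => (KK u 0 x + ((q (x 0))⁻¹) ^ 2 * KK u 1 x) +
    ((q (x 0)) ^ 2 * KK u 2 x + (q (x 0)) ^ 2 * KK u 3 x))]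
  · rw [box_add (G := fun x => KK u 0 x + ((q (x 0))⁻¹) ^ 2 * KK u 1 x)
      (H := fun x => (q (x 0)) ^ 2 * KK u 2 x + (q (x 0)) ^ 2 * KK u 3 x)
      ((KK_cont hs 0).add c1) (c2.add c3),
      box_add (KK_cont hs 0) c1, box_add c2 c3, b0, b1, b2, b3]
    norm_num
  · intro x hx
    have e := heq x hx
    unfold KK
    linear_combination (-u x) * e

end Pool.Agent.W331.ST
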